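import Mathlib

set_option autoImplicit false

open Set Filter Topology Metric
open scoped RealInnerProductSpace

namespace Pool.Agent.Results.MP_ef197a_an.ShiftedIteratesConverge

section defs

variable {V : Type*} [NormedAddCommGroup V] [InnerProductSpace ℝ V]

/-- `p` is a nearest point of `C` to `x`. -/
def IsProj (C : Set V) (x p : V) : Prop := p ∈ C ∧ ∀ q ∈ C, ‖x - p‖ ≤ ‖x - q‖

/-- The nearest-point projection `P_C`. -/
noncomputable def proj (C : Set V) (x : V) : V := Classical.epsilon (fun p => IsProj C x p)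

/-- The reflector `R_C = 2 P_C - Id`. -/
noncomputable def refl (C : Set V) (x : V) : V := (2 : ℝ) • proj C x - x

/-- The Douglas–Rachford operator `(Id + R_B R_A)/2`. -/
noncomputable def DR (A B : Set V) (x : V) : V := (1 / 2 : ℝ) • (x + refl B (refl A x))

/-- `v` is the element of least norm of the closure of the range of `Id - T`. -/
def IsMinDisp (T : V → V) (v : V) : Prop :=
  v ∈ closure (range fun x => x - T x) ∧ ∀ w ∈ closure (range fun x => x - T x), ‖v‖ ≤ ‖w‖

/-! ### Projections on convex sets -/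

lemma proj_var {C : Set V} (hC : Convex ℝ C) {x p : V} (hp : IsProj C x p) {q : V} (hq : q ∈ C) :
    ⟪x - p, q - p⟫ ≤ 0 := by
  by_contra hcon
  push Not at hcon
  have hkey : ∀ t : ℝ, 0 < t → t ≤ 1 → 2 * ⟪x - p, q - p⟫ ≤ t * ‖q - p‖ ^ 2 := by
    intro t ht0 ht1
    have hm : p + t • (q - p) ∈ C := by
      have := hC hp.1 hq (by linarith : 0 ≤ 1 - t) ht0.le (by ring)
      convert this using 1
      rw [smul_sub, sub_smul, one_smul]; abel
    have h1 := hp.2 _ hm
    have h2 : ‖x - p‖ ^ 2 ≤ ‖x - (p + t • (q - p))‖ ^ 2 := by gcongr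
    have e : x - (p + t • (q - p)) = (x - p) - t • (q - p) := by abel
    rw [e] at h2
    have e3 := norm_sub_sq_real (x - p) (t • (q - p))
    rw [inner_smul_right, norm_smul, Real.norm_of_nonneg ht0.le] at e3
    have h3 : t * (2 * ⟪x - p, q - p⟫) ≤ t * (t * ‖q - p‖ ^ 2) := by nlinarith
    exact le_of_mul_le_mul_left h3 ht0
  set I := ⟪x - p, q - p⟫ with hI
  have hn : 0 ≤ ‖q - p‖ ^ 2 := sq_nonneg _
  have h4 := hkey (min 1 (I / (‖q - p‖ ^ 2 + 1))) (lt_min one_pos (by positivity)) (min_le_left _ _)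
  have h5 : min 1 (I / (‖q - p‖ ^ 2 + 1)) * ‖q - p‖ ^ 2 ≤ I / (‖q - p‖ ^ 2 + 1) * ‖q - p‖ ^ 2 :=
    mul_le_mul_of_nonneg_right (min_le_right _ _) hn
  have h6 : I / (‖q - p‖ ^ 2 + 1) * ‖q - p‖ ^ 2 ≤ I := by
    rw [div_mul_eq_mul_div, div_le_iff₀ (by positivity)]
    nlinarith
  linarith

lemma proj_firm {C : Set V} (hC : Convex ℝ C) {x y p q : V} (hp : IsProj C x p)
    (hq : IsProj C y q) : ‖p - q‖ ^ 2 ≤ ⟪p - q, x - y⟫ := by
  have h1 := proj_var hC hp hq.1
  have h2 := proj_var hC hq hp.1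
  have e : ⟪p - q, x - y⟫ = ‖p - q‖ ^ 2 - ⟪x - p, q - p⟫ - ⟪y - q, p - q⟫ := by
    rw [← real_inner_self_eq_norm_sq]
    simp only [inner_sub_left, inner_sub_right]
    rw [real_inner_comm x p, real_inner_comm x q, real_inner_comm y p, real_inner_comm y q,
      real_inner_comm q p]
    ring
  rw [e]; linarith

lemma proj_unique {C : Set V} (hC : Convex ℝ C) {x p q : V} (hp : IsProj C x p)
    (hq : IsProj C x q) : p = q := by
  have h := proj_firm hC hp hq
  rw [sub_self, inner_zero_right] at h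
  have : ‖p - q‖ = 0 := by nlinarith [norm_nonneg (p - q)]
  exact sub_eq_zero.1 (norm_eq_zero.1 this)

/-- explicit projection on a ball -/
noncomputable def pb (a : V) (r : ℝ) (x : V) : V := a + (min 1 (r / ‖x - a‖)) • (x - a)

lemma isProj_pb (a : V) {r : ℝ} (hr : 0 ≤ r) (x : V) : IsProj (closedBall a r) x (pb a r x) := by
  rcases le_or_gt ‖x - a‖ r with h | h
  · have e : pb a r x = x := by
      unfold pb
      rcases eq_or_ne (x - a) 0 with h0 | h0
      · rw [h0, smul_zero, add_zero]; exact (sub_eq_zero.1 h0).symm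
      · have hn : 0 < ‖x - a‖ := norm_pos_iff.2 h0
        rw [min_eq_left (by rw [le_div_iff₀ hn]; linarith), one_smul]; abel
    rw [e]
    refine ⟨by rw [mem_closedBall, dist_eq_norm]; exact h, fun q _ => ?_⟩
    rw [sub_self, norm_zero]; exact norm_nonneg _
  · have hn : 0 < ‖x - a‖ := lt_of_le_of_lt hr h
    have hc : min 1 (r / ‖x - a‖) = r / ‖x - a‖ := by
      apply min_eq_right; rw [div_le_one hn]; exact h.le
    have e1 : pb a r x - a = (r / ‖x - a‖) • (x - a) := by
      unfold pb; rw [hc, add_sub_cancel_left]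
    have e2 : x - pb a r x = (1 - r / ‖x - a‖) • (x - a) := by
      unfold pb; rw [hc, sub_smul, one_smul]; abel
    refine ⟨?_, fun q hq => ?_⟩
    · rw [mem_closedBall, dist_eq_norm, e1, norm_smul, Real.norm_of_nonneg (by positivity),
        div_mul_cancel₀ _ hn.ne']
    · rw [e2, norm_smul, Real.norm_of_nonneg (by
        rw [sub_nonneg, div_le_one hn]; exact h.le)]
      rw [mem_closedBall, dist_eq_norm] at hq
      have h1 : ‖x - a‖ ≤ ‖x - q‖ + ‖q - a‖ := by
        have : x - a = (x - q) + (q - a) := by abel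
        rw [this]; exact norm_add_le _ _
      have h2 : (1 - r / ‖x - a‖) * ‖x - a‖ = ‖x - a‖ - r := by field_simp
      rw [h2]; linarith

lemma proj_ball (a : V) {r : ℝ} (hr : 0 ≤ r) (x : V) : proj (closedBall a r) x = pb a r x := by
  have h1 : IsProj (closedBall a r) x (proj (closedBall a r) x) :=
    Classical.epsilon_spec (p := fun p => IsProj (closedBall a r) x p) ⟨_, isProj_pb a hr x⟩
  exact proj_unique (convex_closedBall a r) h1 (isProj_pb a hr x)

lemma refl_nonexp (a : V) {r : ℝ} (hr : 0 ≤ r) (x y : V) :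
    ‖refl (closedBall a r) x - refl (closedBall a r) y‖ ^ 2 ≤ ‖x - y‖ ^ 2 := by
  have h := proj_firm (convex_closedBall a r) (isProj_pb a hr x) (isProj_pb a hr y)
  unfold refl
  rw [proj_ball a hr, proj_ball a hr]
  set p := pb a r x
  set q := pb a r y
  have e : (2 : ℝ) • p - x - ((2 : ℝ) • q - y) = (2 : ℝ) • (p - q) - (x - y) := by
    rw [smul_sub]; abel
  rw [e, norm_sub_sq_real, inner_smul_left, norm_smul]
  simp
  nlinarith

/-- firm nonexpansiveness -/
def FNE (T : V → V) : Prop := ∀ x y, ‖T x - T y‖ ^ 2 + ‖(x - T x) - (y - T y)‖ ^ 2 ≤ ‖x - y‖ ^ 2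

lemma DR_fne (a b : V) {rA rB : ℝ} (hA : 0 ≤ rA) (hB : 0 ≤ rB) :
    FNE (DR (closedBall a rA) (closedBall b rB)) := by
  intro x y
  have h1 := refl_nonexp a hA x y
  have h2 := refl_nonexp b hB (refl (closedBall a rA) x) (refl (closedBall a rA) y)
  unfold DR
  set N₁ := refl (closedBall b rB) (refl (closedBall a rA) x)
  set N₂ := refl (closedBall b rB) (refl (closedBall a rA) y)
  have h3 : ‖N₁ - N₂‖ ^ 2 ≤ ‖x - y‖ ^ 2 := h2.trans h1
  have e1 : (1 / 2 : ℝ) • (x + N₁) - (1 / 2 : ℝ) • (y + N₂) = (1 / 2 : ℝ) • ((x - y) + (N₁ - N₂)) := by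
    rw [← smul_sub]; congr 1; abel
  have e2 : (x - (1 / 2 : ℝ) • (x + N₁)) - (y - (1 / 2 : ℝ) • (y + N₂)) =
      (1 / 2 : ℝ) • ((x - y) - (N₁ - N₂)) := by
    module
  have e3 := norm_add_sq_real (x - y) (N₁ - N₂)
  have e4 := norm_sub_sq_real (x - y) (N₁ - N₂)
  rw [e1, e2, norm_smul, norm_smul, mul_pow, mul_pow, e3, e4]
  norm_num
  linarith

/-! ### Abstract facts on firmly nonexpansive maps -/

/-- Monotonicity of the displacement. -/
lemma disp_mono {T : V → V} (hT : FNE T) (x y : V) :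
    ‖(x - T x) - (y - T y)‖ ^ 2 ≤ ⟪(x - T x) - (y - T y), x - y⟫ := by
  have h := hT x y
  have e : T x - T y = (x - y) - ((x - T x) - (y - T y)) := by abel
  have e2 := norm_sub_sq_real (x - y) ((x - T x) - (y - T y))
  rw [e, e2, real_inner_comm] at h
  linarith

/-- If the displacement is constantly `v` along `p, p - v, p - 2v, ...` then `v` is the unique
minimal displacement vector. -/
lemma minDisp_of_ray {T : V → V} (hT : FNE T) {p v : V}
    (hp : ∀ n : ℕ, T (p - (n : ℝ) • v) = p - (n : ℝ) • v - v) :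
    IsMinDisp T v ∧ ∀ w, IsMinDisp T w → w = v := by
  have hv : v ∈ range fun x => x - T x := by
    refine ⟨p, ?_⟩
    have := hp 0
    simp only [Nat.cast_zero, zero_smul, sub_zero] at this
    show p - T p = v
    rw [this]; abel
  have key0 : ∀ w ∈ range (fun x => x - T x), 0 ≤ ⟪w - v, v⟫ := by
    rintro w ⟨x, rfl⟩
    have h1 : ∀ n : ℕ, 0 ≤ ⟪(x - T x) - v, x - p⟫ + n * ⟪(x - T x) - v, v⟫ := by
      intro n
      have h := disp_mono hT x (p - (n : ℝ) • v)
      rw [hp n] at h
      have e : p - (n : ℝ) • v - (p - (n : ℝ) • v - v) = v := by abel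
      rw [e] at h
      have e2 : x - (p - (n : ℝ) • v) = (x - p) + (n : ℝ) • v := by abel
      rw [e2, inner_add_right, inner_smul_right] at h
      exact le_trans (sq_nonneg _) h
    by_contra hcon
    push Not at hcon
    obtain ⟨n, hn⟩ := exists_nat_gt (⟪(x - T x) - v, x - p⟫ / (-⟪(x - T x) - v, v⟫))
    rw [div_lt_iff₀ (by linarith)] at hn
    have := h1 n
    linarith
  have key : ∀ w ∈ closure (range (fun x => x - T x)), 0 ≤ ⟪w - v, v⟫ := by
    intro w hw
    have hcl : IsClosed {w : V | 0 ≤ ⟪w - v, v⟫} := by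
      apply isClosed_le continuous_const
      fun_prop
    exact closure_minimal key0 hcl hw
  have hnorm : ∀ w ∈ closure (range (fun x => x - T x)), ‖w - v‖ ^ 2 ≤ ‖w‖ ^ 2 - ‖v‖ ^ 2 := by
    intro w hw
    have h1 := key w hw
    rw [inner_sub_left, real_inner_self_eq_norm_sq] at h1
    rw [norm_sub_sq_real]
    linarith
  refine ⟨⟨subset_closure hv, fun w hw => ?_⟩, fun w hw => ?_⟩
  · have := hnorm w hw
    have h2 : ‖v‖ ^ 2 ≤ ‖w‖ ^ 2 := by nlinarith [sq_nonneg ‖w - v‖]
    exact le_of_sq_le_sq h2 (norm_nonneg _)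
  · have h1 := hnorm w hw.1
    have h2 := hw.2 v (subset_closure hv)
    have h3 : ‖w‖ ^ 2 ≤ ‖v‖ ^ 2 := by gcongr
    have h4 : ‖w - v‖ = 0 := by nlinarith [norm_nonneg (w - v), sq_nonneg ‖w - v‖]
    exact sub_eq_zero.1 (norm_eq_zero.1 h4)

/-- The shifted iterates. -/
noncomputable def zz (T : V → V) (v x : V) (n : ℕ) : V := T^[n] x + (n : ℝ) • v

lemma fejer {T : V → V} (hT : FNE T) {p v : V}
    (hp : ∀ n : ℕ, T (p - (n : ℝ) • v) = p - (n : ℝ) • v - v) (x : V) (n : ℕ) :
    ‖zz T v x (n + 1) - p‖ ^ 2 + ‖zz T v x n - zz T v x (n + 1)‖ ^ 2 ≤ ‖zz T v x n - p‖ ^ 2 := by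
  have h := hT (T^[n] x) (p - (n : ℝ) • v)
  rw [hp n] at h
  unfold zz
  rw [Function.iterate_succ_apply']
  have e1 : T (T^[n] x) + ((n + 1 : ℕ) : ℝ) • v - p = T (T^[n] x) - (p - (n : ℝ) • v - v) := by
    push_cast; module
  have e2 : T^[n] x + (n : ℝ) • v - (T (T^[n] x) + ((n + 1 : ℕ) : ℝ) • v) =
      (T^[n] x - T (T^[n] x)) - (p - (n : ℝ) • v - (p - (n : ℝ) • v - v)) := by
    push_cast; module
  have e3 : T^[n] x + (n : ℝ) • v - p = T^[n] x - (p - (n : ℝ) • v) := by abel
  rw [e1, e2, e3]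
  exact h

lemma fejer_conv {T : V → V} (hT : FNE T) {p v : V}
    (hp : ∀ n : ℕ, T (p - (n : ℝ) • v) = p - (n : ℝ) • v - v) (x : V) :
    (∃ l : ℝ, Tendsto (fun n => ‖zz T v x n - p‖ ^ 2) atTop (𝓝 l)) ∧
    Tendsto (fun n => ‖zz T v x n - zz T v x (n + 1)‖) atTop (𝓝 0) := by
  have hanti : Antitone (fun n => ‖zz T v x n - p‖ ^ 2) := by
    apply antitone_nat_of_succ_le
    intro n
    have := fejer hT hp x n
    nlinarith [sq_nonneg ‖zz T v x n - zz T v x (n + 1)‖]
  have hlim := tendsto_atTop_ciInf hanti ⟨0, by rintro _ ⟨n, rfl⟩; positivity⟩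
  refine ⟨⟨_, hlim⟩, ?_⟩
  have h2 := hlim.sub (hlim.comp (tendsto_add_atTop_nat 1))
  rw [sub_self] at h2
  have h3 : Tendsto (fun n => ‖zz T v x n - zz T v x (n + 1)‖ ^ 2) atTop (𝓝 0) := by
    refine tendsto_of_tendsto_of_tendsto_of_le_of_le tendsto_const_nhds h2
      (fun n => sq_nonneg _) (fun n => ?_)
    have := fejer hT hp x n
    simp only [Function.comp]
    linarith
  have h4 := h3.sqrt
  rw [Real.sqrt_zero] at h4
  refine h4.congr fun n => ?_
  exact Real.sqrt_sq (norm_nonneg _)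

/-- A real sequence with convergent absolute values and increments tending to zero converges. -/
lemma conv_of_abs {b : ℕ → ℝ} {L : ℝ} (h1 : Tendsto (fun n => |b n|) atTop (𝓝 L))
    (h2 : Tendsto (fun n => b n - b (n + 1)) atTop (𝓝 0)) : ∃ l, Tendsto b atTop (𝓝 l) := by
  have hL : 0 ≤ L := ge_of_tendsto' h1 fun n => abs_nonneg _
  rcases eq_or_lt_of_le hL with h0 | h0
  · refine ⟨0, ?_⟩
    rw [← h0] at h1
    exact tendsto_zero_iff_abs_tendsto_zero b |>.2 h1
  · have e1 : ∀ᶠ n in atTop, L / 2 < |b n| := h1.eventually (lt_mem_nhds (by linarith))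
    have e2 : ∀ᶠ n in atTop, |b n - b (n + 1)| < L / 2 := by
      have := h2.abs
      rw [abs_zero] at this
      exact this.eventually (gt_mem_nhds (by linarith))
    obtain ⟨N, hN⟩ := eventually_atTop.1 (e1.and e2)
    -- the sign is constant from `N` on
    have hsign : (∀ n ≥ N, 0 < b n) ∨ (∀ n ≥ N, b n < 0) := by
      rcases lt_or_ge 0 (b N) with h | h
      · left
        intro n hn
        induction n, hn using Nat.le_induction with
        | base => exact h
        | succ n hn ih =>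
          obtain ⟨a1, a2⟩ := hN n hn
          rw [abs_of_pos ih] at a1
          rw [abs_lt] at a2
          linarith [a2.2]
      · right
        have hneg : b N < 0 := by
          rcases eq_or_lt_of_le h with h' | h'
          · exfalso
            have := (hN N le_rfl).1
            rw [h', abs_zero] at this
            linarith
          · exact h'
        intro n hn
        induction n, hn using Nat.le_induction with
        | base => exact hneg
        | succ n hn ih =>
          obtain ⟨a1, a2⟩ := hN n hn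
          rw [abs_of_neg ih] at a1
          rw [abs_lt] at a2
          linarith [a2.1]
    rcases hsign with h | h
    · refine ⟨L, h1.congr' ?_⟩
      filter_upwards [eventually_ge_atTop N] with n hn
      exact abs_of_pos (h n hn)
    · refine ⟨-L, h1.neg.congr' ?_⟩
      filter_upwards [eventually_ge_atTop N] with n hn
      rw [abs_of_neg (h n hn), neg_neg]

/-! ### The two balls -/

/-- Disjoint balls: the ray of the Douglas–Rachford operator. -/
lemma DR_ray {a e : V} (he : ‖e‖ = 1) {rA rB D : ℝ} (hA : 0 ≤ rA) (hB : 0 ≤ rB)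
    (hD : rA + rB < D) {s : ℝ} (hs : rA ≤ s) :
    DR (closedBall a rA) (closedBall (a + D • e) rB) (a + s • e) =
      a + (s + (D - rA - rB)) • e := by
  have h1 : pb a rA (a + s • e) = a + rA • e := by
    unfold pb
    rw [add_sub_cancel_left, norm_smul, he, mul_one, Real.norm_of_nonneg (by linarith)]
    rcases eq_or_lt_of_le (hA.trans hs) with h0 | h0
    · have : rA = 0 := by linarith
      rw [← h0, this]; simp
    · rw [min_eq_right (by rw [div_le_one h0]; exact hs), smul_smul, div_mul_cancel₀ _ h0.ne']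
  have h2 : refl (closedBall a rA) (a + s • e) = a + (2 * rA - s) • e := by
    unfold refl
    rw [proj_ball a hA, h1]; module
  have h3 : pb (a + D • e) rB (a + (2 * rA - s) • e) = a + (D - rB) • e := by
    unfold pb
    have e1 : a + (2 * rA - s) • e - (a + D • e) = -((D - (2 * rA - s)) • e) := by module
    have hpos : 0 < D - (2 * rA - s) := by linarith
    rw [e1, norm_neg, norm_smul, he, mul_one, Real.norm_of_nonneg hpos.le,
      min_eq_right (by rw [div_le_one hpos]; linarith), smul_neg, smul_smul,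
      div_mul_cancel₀ _ hpos.ne']
    module
  have h4 : refl (closedBall (a + D • e) rB) (a + (2 * rA - s) • e) =
      a + (2 * (D - rB) - (2 * rA - s)) • e := by
    unfold refl
    rw [proj_ball _ hB, h3]; module
  unfold DR
  rw [h2, h4]
  module

/-- The operator preserves the affine subspaces through the centres. -/
lemma DR_mem {a b : V} {rA rB : ℝ} (hA : 0 ≤ rA) (hB : 0 ≤ rB) {S : Submodule ℝ V}
    (hb : b - a ∈ S) {x : V} (hx : x - a ∈ S) :
    DR (closedBall a rA) (closedBall b rB) x - a ∈ S := by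
  have h1 : ∀ y, y - a ∈ S → refl (closedBall a rA) y - a ∈ S := by
    intro y hy
    unfold refl
    rw [proj_ball a hA]
    unfold pb
    have e : (2 : ℝ) • (a + (min 1 (rA / ‖y - a‖)) • (y - a)) - y - a =
        (2 * min 1 (rA / ‖y - a‖) - 1) • (y - a) := by module
    rw [e]
    exact S.smul_mem _ hy
  have h2 : ∀ y, y - a ∈ S → refl (closedBall b rB) y - a ∈ S := by
    intro y hy
    unfold refl
    rw [proj_ball b hB]
    unfold pb
    have e : (2 : ℝ) • (b + (min 1 (rB / ‖y - b‖)) • (y - b)) - y - a =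
        (2 * min 1 (rB / ‖y - b‖) - 1) • (y - a) + (2 - 2 * min 1 (rB / ‖y - b‖)) • (b - a) := by
      module
    rw [e]
    exact S.add_mem (S.smul_mem _ hy) (S.smul_mem _ hb)
  unfold DR
  have h3 := h2 _ (h1 x hx)
  have e : (1 / 2 : ℝ) • (x + refl (closedBall b rB) (refl (closedBall a rA) x)) - a =
      (1 / 2 : ℝ) • ((x - a) + (refl (closedBall b rB) (refl (closedBall a rA) x) - a)) := by
    module
  rw [e]
  exact S.smul_mem _ (S.add_mem hx h3)

/-- Disjoint balls. -/
lemma disjoint_case (a : V) {e : V} (he : ‖e‖ = 1) {rA rB D : ℝ} (hA : 0 ≤ rA) (hB : 0 ≤ rB)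
    (hD : rA + rB < D) :
    ∃ v, (IsMinDisp (DR (closedBall a rA) (closedBall (a + D • e) rB)) v ∧
      ∀ w, IsMinDisp (DR (closedBall a rA) (closedBall (a + D • e) rB)) w → w = v) ∧
      ∀ x, ∃ L, Tendsto (zz (DR (closedBall a rA) (closedBall (a + D • e) rB)) v x)
        atTop (𝓝 L) := by
  set T := DR (closedBall a rA) (closedBall (a + D • e) rB) with hTdef
  have hT : FNE T := DR_fne a _ hA hB
  set g := D - rA - rB with hg
  have hg0 : 0 < g := by linarith
  set v : V := -(g • e) with hv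
  have hray : ∀ s, rA ≤ s → ∀ n : ℕ, T (a + s • e - (n : ℝ) • v) = a + s • e - (n : ℝ) • v - v := by
    intro s hs n
    have e1 : a + s • e - (n : ℝ) • v = a + (s + n * g) • e := by rw [hv]; module
    have hn : (0:ℝ) ≤ n := Nat.cast_nonneg n
    rw [e1, hTdef, DR_ray he hA hB hD (by nlinarith), ← hg, hv]
    module
  refine ⟨v, minDisp_of_ray hT (hray rA le_rfl), fun x => ?_⟩
  obtain ⟨⟨l₁, hl₁⟩, hd⟩ := fejer_conv hT (hray rA le_rfl) x
  obtain ⟨⟨l₂, hl₂⟩, _⟩ := fejer_conv hT (hray (rA + 1) (by linarith)) x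
  set z := zz T v x with hz
  -- axial coordinate
  have hax : ∃ l, Tendsto (fun n => ⟪z n - a, e⟫) atTop (𝓝 l) := by
    refine ⟨((l₁ - l₂) + ((rA + 1) ^ 2 - rA ^ 2)) / 2, ?_⟩
    have h1 := ((hl₁.sub hl₂).add_const ((rA + 1) ^ 2 - rA ^ 2)).div_const 2
    refine h1.congr fun n => ?_
    have f : ∀ s : ℝ, ‖z n - (a + s • e)‖ ^ 2 = ‖z n - a‖ ^ 2 - 2 * s * ⟪z n - a, e⟫ + s ^ 2 := by
      intro s
      have e1 : z n - (a + s • e) = (z n - a) - s • e := by abel
      rw [e1, norm_sub_sq_real, inner_smul_right, norm_smul, he, mul_one, Real.norm_eq_abs, sq_abs]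
      ring
    rw [f, f]; ring
  obtain ⟨la, hla⟩ := hax
  -- orthogonal direction
  set w : V := (x - a) - ⟪x - a, e⟫ • e with hw
  have hwe : ⟪w, e⟫ = 0 := by
    rw [hw, inner_sub_left, inner_smul_left, real_inner_self_eq_norm_sq, he]; simp
  have hew : ⟪e, w⟫ = 0 := by rw [real_inner_comm]; exact hwe
  set S : Submodule ℝ V := Submodule.span ℝ {e, w} with hS
  have heS : e ∈ S := Submodule.subset_span (by simp)
  have hwS : w ∈ S := Submodule.subset_span (by simp)
  have hxS : x - a ∈ S := by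
    have : x - a = w + ⟪x - a, e⟫ • e := by rw [hw]; abel
    rw [this]
    exact S.add_mem hwS (S.smul_mem _ heS)
  have hTS : ∀ n, T^[n] x - a ∈ S := by
    intro n
    induction n with
    | zero => exact hxS
    | succ n ih =>
      rw [Function.iterate_succ_apply']
      refine DR_mem hA hB ?_ ih
      rw [add_sub_cancel_left]
      exact S.smul_mem _ heS
  have hzS : ∀ n, z n - a ∈ S := by
    intro n
    have : z n - a = (T^[n] x - a) + (n : ℝ) • v := by rw [hz]; unfold zz; abel
    rw [this, hv]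
    exact S.add_mem (hTS n) (S.smul_mem _ (S.neg_mem (S.smul_mem _ heS)))
  -- decomposition in the plane
  have hdec : ∀ n, ∃ β : ℝ, z n - a = ⟪z n - a, e⟫ • e + β • w := by
    intro n
    obtain ⟨c, β, hcβ⟩ := Submodule.mem_span_pair.1 (hzS n)
    refine ⟨β, ?_⟩
    have : ⟪z n - a, e⟫ = c := by
      rw [← hcβ, inner_add_left, inner_smul_left, inner_smul_left, hwe,
        real_inner_self_eq_norm_sq, he]; simp
    rw [this]; exact hcβ.symm
  choose β hβ using hdec
  rcases eq_or_ne w 0 with hw0 | hw0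
  · refine ⟨a + la • e, ?_⟩
    have h1 : Tendsto (fun n => a + ⟪z n - a, e⟫ • e) atTop (𝓝 (a + la • e)) :=
      (hla.smul_const e).const_add a
    refine h1.congr fun n => ?_
    have := hβ n
    rw [hw0, smul_zero, add_zero] at this
    rw [← this]; abel
  · have hwn : 0 < ‖w‖ := norm_pos_iff.2 hw0
    have hβin : ∀ n, ⟪z n - a, w⟫ = β n * ‖w‖ ^ 2 := by
      intro n
      rw [hβ n, inner_add_left, inner_smul_left, inner_smul_left, hew,
        real_inner_self_eq_norm_sq]
      simp
    have hnorm : ∀ n, (|β n| * ‖w‖) ^ 2 = ‖z n - (a + rA • e)‖ ^ 2 - (⟪z n - a, e⟫ - rA) ^ 2 := by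
      intro n
      have e1 : z n - (a + rA • e) = (⟪z n - a, e⟫ - rA) • e + β n • w := by
        have : z n - (a + rA • e) = (z n - a) - rA • e := by abel
        rw [this]
        conv_lhs => rw [hβ n]
        module
      rw [e1, norm_add_sq_real, inner_smul_left, inner_smul_right, hew, norm_smul,
        norm_smul, he, mul_one, Real.norm_eq_abs, Real.norm_eq_abs, sq_abs]
      simp
    have habs : ∃ l, Tendsto (fun n => |β n|) atTop (𝓝 l) := by
      refine ⟨Real.sqrt (l₁ - (la - rA) ^ 2) / ‖w‖, ?_⟩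
      have h1 := ((hl₁.sub ((hla.sub_const rA).pow 2)).sqrt).div_const ‖w‖
      refine h1.congr fun n => ?_
      rw [← hnorm n, Real.sqrt_sq (by positivity)]
      field_simp
    obtain ⟨lb, hlb⟩ := habs
    have hinc : Tendsto (fun n => β n - β (n + 1)) atTop (𝓝 0) := by
      have h1 : ∀ n, |β n - β (n + 1)| ≤ ‖z n - z (n + 1)‖ / ‖w‖ := by
        intro n
        rw [le_div_iff₀ hwn]
        have e1 : (β n - β (n + 1)) * ‖w‖ ^ 2 = ⟪z n - z (n + 1), w⟫ := by
          have : z n - z (n + 1) = (z n - a) - (z (n + 1) - a) := by abel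
          rw [this, inner_sub_left, hβin, hβin]; ring
        have e2 := abs_real_inner_le_norm (z n - z (n + 1)) w
        rw [← e1, abs_mul, abs_of_nonneg (sq_nonneg ‖w‖)] at e2
        have e3 : (|β n - β (n + 1)| * ‖w‖) * ‖w‖ ≤ ‖z n - z (n + 1)‖ * ‖w‖ := by
          calc (|β n - β (n + 1)| * ‖w‖) * ‖w‖ = |β n - β (n + 1)| * ‖w‖ ^ 2 := by ring
            _ ≤ _ := e2
        exact le_of_mul_le_mul_right e3 hwn
      have h2 := hd.div_const ‖w‖
      rw [zero_div] at h2
      rw [tendsto_zero_iff_abs_tendsto_zero]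
      exact tendsto_of_tendsto_of_tendsto_of_le_of_le tendsto_const_nhds h2
        (fun n => abs_nonneg _) h1
    obtain ⟨l, hl⟩ := conv_of_abs hlb hinc
    refine ⟨a + (la • e + l • w), ?_⟩
    have h1 : Tendsto (fun n => a + (⟪z n - a, e⟫ • e + β n • w)) atTop
        (𝓝 (a + (la • e + l • w))) :=
      ((hla.smul_const e).add (hl.smul_const w)).const_add a
    refine h1.congr fun n => ?_
    rw [← hβ n]; abel

/-- Intersecting balls. -/
lemma meeting_case [FiniteDimensional ℝ V] {a b : V} {rA rB : ℝ} (hA : 0 ≤ rA) (hB : 0 ≤ rB)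
    {p : V} (hpA : p ∈ closedBall a rA) (hpB : p ∈ closedBall b rB) :
    (IsMinDisp (DR (closedBall a rA) (closedBall b rB)) 0 ∧
      ∀ w, IsMinDisp (DR (closedBall a rA) (closedBall b rB)) w → w = 0) ∧
      ∀ x, ∃ L, Tendsto (zz (DR (closedBall a rA) (closedBall b rB)) 0 x) atTop (𝓝 L) := by
  set T := DR (closedBall a rA) (closedBall b rB) with hTdef
  have hT : FNE T := DR_fne a b hA hB
  have hfix : T p = p := by
    have h1 : ∀ (c : V) {r : ℝ}, 0 ≤ r → p ∈ closedBall c r → refl (closedBall c r) p = p := by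
      intro c r hr hp
      have : proj (closedBall c r) p = p := by
        rw [proj_ball c hr]
        refine proj_unique (convex_closedBall c r) (isProj_pb c hr p) ⟨hp, fun q _ => ?_⟩
        rw [sub_self, norm_zero]; exact norm_nonneg _
      unfold refl; rw [this]; module
    rw [hTdef]; unfold DR
    rw [h1 a hA hpA, h1 b hB hpB]; module
  have hray : ∀ q, T q = q → ∀ n : ℕ, T (q - (n : ℝ) • (0 : V)) = q - (n : ℝ) • (0 : V) - 0 := by
    intro q hq n
    rw [smul_zero, sub_zero, sub_zero, hq]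
  refine ⟨minDisp_of_ray hT (hray p hfix), fun x => ?_⟩
  obtain ⟨⟨l, hl⟩, hd⟩ := fejer_conv hT (hray p hfix) x
  set z := zz T 0 x with hz
  have hzT : ∀ n, z n = T^[n] x := by intro n; rw [hz]; unfold zz; simp
  -- bounded, hence a cluster point
  have hbd : ∃ R, ∀ n, z n ∈ closedBall p R := by
    obtain ⟨R, hR⟩ := hl.bddAbove_range
    refine ⟨Real.sqrt R, fun n => ?_⟩
    rw [mem_closedBall, dist_eq_norm]
    exact Real.le_sqrt_of_sq_le (hR ⟨n, rfl⟩)
  obtain ⟨R, hR⟩ := hbd
  obtain ⟨q, -, φ, hφ, hq⟩ := (isCompact_closedBall p R).tendsto_subseq hR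
  have hTc : Continuous T := by
    apply LipschitzWith.continuous (K := 1)
    apply LipschitzWith.of_dist_le_mul
    intro x y
    rw [dist_eq_norm, dist_eq_norm, NNReal.coe_one, one_mul]
    have := hT x y
    have h2 : ‖T x - T y‖ ^ 2 ≤ ‖x - y‖ ^ 2 := by
      nlinarith [sq_nonneg ‖(x - T x) - (y - T y)‖]
    exact le_of_sq_le_sq h2 (norm_nonneg _)
  have hqfix : T q = q := by
    have h1 : Tendsto (fun n => ‖z (φ n) - T (z (φ n))‖) atTop (𝓝 ‖q - T q‖) :=
      (hq.sub ((hTc.tendsto q).comp hq)).norm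
    have h2 : Tendsto (fun n => ‖z (φ n) - z (φ n + 1)‖) atTop (𝓝 0) :=
      hd.comp hφ.tendsto_atTop
    have h3 : ∀ n, z (n + 1) = T (z n) := by
      intro n; rw [hzT, hzT, Function.iterate_succ_apply']
    have h4 : ‖q - T q‖ = 0 := by
      refine tendsto_nhds_unique h1 ?_
      refine h2.congr fun n => ?_
      rw [h3]
    exact (sub_eq_zero.1 (norm_eq_zero.1 h4)).symm
  obtain ⟨⟨l', hl'⟩, _⟩ := fejer_conv hT (hray q hqfix) x
  refine ⟨q, ?_⟩
  have h0 : l' = 0 := by
    have h1 : Tendsto (fun n => ‖z (φ n) - q‖ ^ 2) atTop (𝓝 l') := hl'.comp hφ.tendsto_atTop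
    have h2 : Tendsto (fun n => ‖z (φ n) - q‖ ^ 2) atTop (𝓝 (‖q - q‖ ^ 2)) :=
      ((hq.sub_const q).norm).pow 2
    rw [sub_self, norm_zero] at h2
    have := tendsto_nhds_unique h1 h2
    simpa using this
  rw [h0] at hl'
  rw [tendsto_iff_norm_sub_tendsto_zero]
  have h4 := hl'.sqrt
  rw [Real.sqrt_zero] at h4
  refine h4.congr fun n => ?_
  exact Real.sqrt_sq (norm_nonneg _)

end defs

/-- For two closed balls in `ℝ^d` (in particular `d = 3`), the minimal displacement vector `v` of
the Douglas–Rachford operator `T` exists and is unique, and `T^n x + n v` converges for every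
starting point `x`. -/
theorem result : ∀ (d : ℕ) (a b : EuclideanSpace ℝ (Fin d)) (rA rB : ℝ), 0 ≤ rA → 0 ≤ rB →
    (∃! v, IsMinDisp (DR (closedBall a rA) (closedBall b rB)) v) ∧
    ∀ v, IsMinDisp (DR (closedBall a rA) (closedBall b rB)) v →
      ∀ x, ∃ L, Tendsto (fun n : ℕ => (DR (closedBall a rA) (closedBall b rB))^[n] x + (n : ℝ) • v)
        atTop (𝓝 L) := by
  intro d a b rA rB hA hB
  have main : ∃ v, (IsMinDisp (DR (closedBall a rA) (closedBall b rB)) v ∧
      ∀ w, IsMinDisp (DR (closedBall a rA) (closedBall b rB)) w → w = v) ∧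
      ∀ x, ∃ L, Tendsto (zz (DR (closedBall a rA) (closedBall b rB)) v x) atTop (𝓝 L) := by
    rcases lt_or_ge (rA + rB) ‖b - a‖ with h | h
    · have hn : 0 < ‖b - a‖ := lt_of_le_of_lt (by positivity) h
      set e := ‖b - a‖⁻¹ • (b - a) with he
      have he1 : ‖e‖ = 1 := by
        rw [he, norm_smul, norm_inv, norm_norm]
        exact inv_mul_cancel₀ hn.ne'
      have hb : b = a + ‖b - a‖ • e := by
        rw [he, smul_smul, mul_inv_cancel₀ hn.ne', one_smul]; abel
      have := disjoint_case a he1 hA hB h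
      rw [← hb] at this
      exact this
    · -- a common point on the segment of centres
      obtain ⟨p, hpA, hpB⟩ : ∃ p, p ∈ closedBall a rA ∧ p ∈ closedBall b rB := by
        rcases le_or_gt ‖b - a‖ rA with h1 | h1
        · refine ⟨b, ?_, mem_closedBall_self hB⟩
          rw [mem_closedBall, dist_eq_norm]; exact h1
        · have hn : 0 < ‖b - a‖ := lt_of_le_of_lt hA h1
          refine ⟨a + (rA / ‖b - a‖) • (b - a), ?_, ?_⟩
          · rw [mem_closedBall, dist_eq_norm, add_sub_cancel_left, norm_smul,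
              Real.norm_of_nonneg (by positivity), div_mul_cancel₀ _ hn.ne']
          · rw [mem_closedBall, dist_eq_norm]
            have e1 : a + (rA / ‖b - a‖) • (b - a) - b = -((1 - rA / ‖b - a‖) • (b - a)) := by
              module
            rw [e1, norm_neg, norm_smul, Real.norm_of_nonneg (by
              rw [sub_nonneg, div_le_one hn]; exact h1.le)]
            have h2 : (1 - rA / ‖b - a‖) * ‖b - a‖ = ‖b - a‖ - rA := by field_simp
            rw [h2]; linarith
      exact ⟨0, meeting_case hA hB hpA hpB⟩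
  obtain ⟨v, ⟨hv, hu⟩, hx⟩ := main
  refine ⟨⟨v, hv, hu⟩, fun w hw x => ?_⟩
  rw [hu w hw]
  exact hx x

end Pool.Agent.Results.MP_ef197a_an.ShiftedIteratesConverge
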